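import Mathlib
import Pool.Agent.TH202.Neg
import Pool.Agent.TH922.C8_DAT
import Pool.Agent.TH551.C8_XM1
import Pool.Agent.TH755.C8_SEQ
import Pool.Agent.TH246.C8_POS

/-!
# A gklt generalized pair without log terminal model

There is a projective (hence compact Kähler) gklt pair `(X, B + β)` of dimension three with
`K_X + B + β_X` pseudo-effective which has no log terminal model.
-/

set_option autoImplicit false

namespace Pool.Agent.Results.MP_c8c12f_ag.NoLogTerminalModel

open Pool.Agent.H436R3.Fol Pool.Agent.TH202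

theorem result : ∃ (K : Type) (_ : Field K) (_ : Algebra ℂ K) (_ : Algebra.EssFiniteType ℂ K)
    (T : Foliation K 3) (_ : T.space = ⊤) (X : Model K) (B β D : DVal K → ℝ),
    IsGklt T X B β D ∧ IsPsef X D ∧
      ∀ (Y : Model K) (E : DVal K → ℝ), ¬ IsWeakLTModel T X B β D Y E := by
  obtain ⟨K, iF, iA, iE, ⟨d⟩⟩ := Pool.Agent.TH922.C8_DAT.exists_dat
  obtain ⟨T, hT, hTs⟩ := Pool.Agent.TH922.C8_DAT.exists_fol d
  have h := Pool.Agent.TH551.C8_XM1.xi_alg d
  obtain ⟨s⟩ := Pool.Agent.TH755.C8_SEQ.exists_sq d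
  refine ⟨K, iF, iA, iE, T, hTs, Xd d h, Bd d (1 / 6), bt s, Dd s (1 / 6), ?_, ?_, ?_⟩
  · exact Pool.Agent.TH246.C8_POS.is_gklt h s T hT (by norm_num) (by norm_num)
  · exact Pool.Agent.TH246.C8_POS.is_psef h s (by norm_num)
  · intro Y E
    exact no_model h s T hT (by norm_num) Y E

end Pool.Agent.Results.MP_c8c12f_ag.NoLogTerminalModel
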